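import Mathlib

/-!
# MP_093788_gt: exact Lagrangian caps of Legendrian knots

Definitions: Legendrian knots in the standard contact space `ℝ³`, Legendrian isotopy,
stabilizations, exact Lagrangian caps in the symplectization.
-/

namespace LC

open Set
open scoped ContDiff

/-! ### the standard contact space -/

/-- `ℝ³` with coordinates `(x, y, z)`. -/
abbrev R3 : Type := ℝ × ℝ × ℝ

/-- The contact form `α = dz - y dx` at the point `p`, applied to the tangent vector `v`. -/
def alpha (p v : R3) : ℝ := v.2.2 - p.2.1 * v.1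

/-- A Legendrian knot: a smooth embedding `γ : ℝ / ℤ → ℝ³` tangent to `ker α`. -/
structure LegKnot where
  /-- the parametrization -/
  γ : ℝ → R3
  smooth : ContDiff ℝ ∞ γ
  periodic : ∀ u, γ (u + 1) = γ u
  immersion : ∀ u, deriv γ u ≠ 0
  injective : ∀ u v, γ u = γ v → ∃ k : ℤ, v = u + k
  legendrian : ∀ u, alpha (γ u) (deriv γ u) = 0

/-- The Legendrian knot as a subset of `ℝ³`. -/
def LegKnot.carrier (Λ : LegKnot) : Set R3 := range Λ.γ

/-- Legendrian isotopy: there is a smooth family `H τ`, `0 ≤ τ ≤ 1`, of Legendrian knots from `Λ`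
to `Λ'`. -/
def Isotopic (Λ Λ' : LegKnot) : Prop :=
  ∃ H : ℝ → LegKnot, ContDiffOn ℝ ∞ (fun q : ℝ × ℝ => (H q.1).γ q.2) (Icc 0 1 ×ˢ univ) ∧
    (H 0).carrier = Λ.carrier ∧ (H 1).carrier = Λ'.carrier

/-! ### stabilizations -/

/-- The front projection `(x, y, z) ↦ (x, z)`. -/
def front (p : R3) : ℝ × ℝ := (p.1, p.2.2)

/-- The `x`-coordinate of the knot. -/
def LegKnot.x (Λ : LegKnot) (u : ℝ) : ℝ := (Λ.γ u).1

/-- The `y`-coordinate of the knot. -/
def LegKnot.y (Λ : LegKnot) (u : ℝ) : ℝ := (Λ.γ u).2.1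

/-- `Λ'` is a stabilization of `Λ`: it is obtained from `Λ` by adding a zigzag to the front
projection. There is a convex open subset `D` of the front plane in which the front of `Λ` is the
graph of a function over an interval of the `x`-axis (the image of the arc `a < u < b`); outside
`D` the knots agree; in `D` the front of `Λ'` is an arc without double points, with exactly two
cusps (at `u = c` and `u = d`), at which the arc turns in opposite directions (a zigzag). -/
def IsStabilization (Λ' Λ : LegKnot) : Prop :=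
  ∃ (a c d b : ℝ) (D : Set (ℝ × ℝ)), a < c ∧ c < d ∧ d < b ∧ b < a + 1 ∧
    (∀ u ∈ Icc b (a + 1), Λ'.γ u = Λ.γ u) ∧
    IsOpen D ∧ Convex ℝ D ∧
    (∀ u ∈ Icc b (a + 1), front (Λ.γ u) ∉ D) ∧
    (∀ u ∈ Ioo a b, front (Λ.γ u) ∈ D ∧ deriv Λ.x u ≠ 0) ∧
    (∀ u ∈ Ioo a b, front (Λ'.γ u) ∈ D) ∧
    InjOn (fun u => front (Λ'.γ u)) (Icc a b) ∧
    (∀ u ∈ Icc a b, deriv Λ'.x u = 0 ↔ u = c ∨ u = d) ∧
    deriv (deriv Λ'.x) c ≠ 0 ∧ deriv (deriv Λ'.x) d ≠ 0 ∧
    deriv Λ'.y c * deriv Λ'.y d < 0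

/-- `Λ` is destabilizable: it is Legendrian isotopic to a stabilization of some Legendrian knot. -/
def Destabilizable (Λ : LegKnot) : Prop :=
  ∃ Λ' Λ'' : LegKnot, IsStabilization Λ' Λ'' ∧ Isotopic Λ Λ'

/-! ### exact Lagrangian caps -/

/-- The symplectization `ℝ × ℝ³` with coordinates `(t, (x, y, z))`. -/
abbrev R4 : Type := ℝ × R3

/-- The form `e^t α` at the point `q`, applied to the tangent vector `v`. -/
noncomputable def lam (q v : R4) : ℝ := Real.exp q.1 * alpha q.2 v.2

/-- The symplectic form `d (e^t α) = e^t (dt ∧ α + dx ∧ dy)` at the point `q`, applied to the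
tangent vectors `v`, `w`. -/
noncomputable def omega (q v w : R4) : ℝ :=
  Real.exp q.1 * (v.1 * alpha q.2 w.2 - w.1 * alpha q.2 v.2 + (v.2.1 * w.2.2.1 - v.2.2.1 * w.2.1))

/-- `φ` is a smooth embedding of the open subset `U` of `ℝ²` onto the part of `L` which lies in the
open set `V`. -/
structure IsChart (L : Set R4) (U : Set (ℝ × ℝ)) (V : Set R4) (φ : ℝ × ℝ → R4) : Prop where
  openU : IsOpen U
  openV : IsOpen V
  smooth : ContDiffOn ℝ ∞ φ U
  immersion : ∀ u ∈ U, Function.Injective (fderiv ℝ φ u)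
  embedding : Topology.IsEmbedding fun u : U => φ u
  image : φ '' U = L ∩ V

/-- `L` is an exact Lagrangian cap of the Legendrian knot `Λ`: a properly embedded, connected smooth
Lagrangian surface in the symplectization which coincides with `(-∞, -T) × Λ` for `t < -T`, is
empty for `t > T`, and on which `e^t α = df` for a function `f` which is constant on the end
`t < -T`. -/
structure IsExactCap (Λ : LegKnot) (L : Set R4) : Prop where
  closed : IsClosed L
  connected : IsConnected L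
  surface : ∀ p ∈ L, ∃ U V φ, IsChart L U V φ ∧ p ∈ V
  lagrangian : ∀ U V φ, IsChart L U V φ → ∀ u ∈ U, ∀ v w,
    omega (φ u) (fderiv ℝ φ u v) (fderiv ℝ φ u w) = 0
  ends : ∃ T > 0, (∀ q : R4, q.1 < -T → (q ∈ L ↔ q.2 ∈ Λ.carrier)) ∧ (∀ q ∈ L, q.1 ≤ T) ∧
    IsCompact (L ∩ {q | -T ≤ q.1}) ∧
    ∃ (f : R4 → ℝ) (k : ℝ), (∀ q ∈ L, q.1 < -T → f q = k) ∧
      ∀ U V φ, IsChart L U V φ → ∀ u ∈ U, DifferentiableAt ℝ (fun w => f (φ w)) u ∧
        ∀ v, fderiv ℝ (fun w => f (φ w)) u v = lam (φ u) (fderiv ℝ φ u v)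

/-! ### the question -/

/-- Q1: there is a Legendrian knot in the standard contact space which is not destabilizable and
has an exact Lagrangian cap. -/
def Question : Prop := ∃ Λ : LegKnot, ¬ Destabilizable Λ ∧ ∃ L, IsExactCap Λ L

end LC
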